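import Pool.Agent.Q201.AR.Stm

set_option autoImplicit false

/-! Project AR (MP_f714b8_lc), JOB ISO: two good codings are isomorphic. -/

open Q201.AR

namespace Q188.AR

/-- the parametrisation of `M` given by a coding -/
def par {M : Type} (k c : ℕ) (ι : M → M) (code : ℕ → (Fin k → M) → M) :
    M ⊕ (Fin c × (Fin k → M)) → M
  | Sum.inl a => ι a
  | Sum.inr q => code q.1 q.2

theorem par_bij {M : Type} {k c : ℕ} {ι : M → M} {code : ℕ → (Fin k → M) → M}
    (h : Good k c ι code) : Function.Bijective (par k c ι code) := by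
  constructor
  · rintro (a | ⟨i, t⟩) (b | ⟨j, u⟩) hab
    · simp only [par] at hab
      rw [h.inj hab]
    · simp only [par] at hab
      exact absurd hab (h.disj _ _ _ j.2)
    · simp only [par] at hab
      exact absurd hab.symm (h.disj _ _ _ i.2)
    · simp only [par] at hab
      obtain ⟨h1, h2⟩ := h.cinj _ _ _ _ i.2 j.2 hab
      have h3 : i = j := Fin.ext h1
      subst h3
      subst h2
      rfl
  · intro x
    rcases h.surj x with ⟨a, ha⟩ | ⟨i, hi, t, ht⟩
    · exact ⟨Sum.inl a, by simp [par, ha]⟩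
    · exact ⟨Sum.inr (⟨i, hi⟩, t), by simp [par, ht]⟩

theorem RR_map {M : Type} {k r : ℕ} {ι ι' : M → M} {code code' : ℕ → (Fin k → M) → M}
    {S : Fin r → (Fin k → M) → Prop} (δ : M → M) (h1 : ∀ a, δ (ι' a) = ι a)
    (h2 : ∀ i t, i < k + r → δ (code' i t) = code i t) {x y : M}
    (h : RR k r S ι' code' x y) : RR k r S ι code (δ x) (δ y) := by
  rcases h with ⟨i, t, hi, hx, hy⟩ | ⟨i, t, l, hi, hl, hx, hy⟩ | ⟨j, t, hS, hx, hy⟩
  · left
    exact ⟨i, t, hi, by rw [hx, h2 _ _ (by omega)], by rw [hy, h2 _ _ hi]⟩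
  · right; left
    exact ⟨i, t, l, hi, hl, by rw [hx, h2 _ _ hi], by rw [hy, h1]⟩
  · right; right
    refine ⟨j, t, hS, ?_, by rw [hy]⟩
    rw [hx, h2 _ _ (by have := j.2; omega)]

/-- Two good codings are isomorphic. -/
theorem t_ISO : S_ISO := by
  intro M k r ι ι' code code' S hg hg'
  let e := Equiv.ofBijective _ (par_bij hg)
  let e' := Equiv.ofBijective _ (par_bij hg')
  have he : ∀ a, e (Sum.inl a) = ι a := fun a => rfl
  have he2 : ∀ (i : ℕ) (hi : i < k + r) (t : Fin k → M), e (Sum.inr (⟨i, hi⟩, t)) = code i t :=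
    fun i hi t => rfl
  have he' : ∀ a, e' (Sum.inl a) = ι' a := fun a => rfl
  have he2' : ∀ (i : ℕ) (hi : i < k + r) (t : Fin k → M), e' (Sum.inr (⟨i, hi⟩, t)) = code' i t :=
    fun i hi t => rfl
  have k1 : ∀ a, (e'.symm.trans e) (ι' a) = ι a := by
    intro a
    rw [Equiv.trans_apply, ← he' a, Equiv.symm_apply_apply, he]
  have k2 : ∀ i t, i < k + r → (e'.symm.trans e) (code' i t) = code i t := by
    intro i t hi
    rw [Equiv.trans_apply, ← he2' i hi t, Equiv.symm_apply_apply, he2]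
  have k3 : ∀ a, (e'.symm.trans e).symm (ι a) = ι' a := by
    intro a
    rw [Equiv.symm_apply_eq, k1]
  have k4 : ∀ i t, i < k + r → (e'.symm.trans e).symm (code i t) = code' i t := by
    intro i t hi
    rw [Equiv.symm_apply_eq, k2 i t hi]
  refine ⟨e'.symm.trans e, fun x y => ⟨fun h => RR_map _ k1 k2 h, fun h => ?_⟩⟩
  have h5 := RR_map (S := S) _ k3 k4 h
  rwa [Equiv.symm_apply_apply, Equiv.symm_apply_apply] at h5

end Q188.AR
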