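import Mathlib
import Pool.Agent.Q82.BB.Stm

/-! Project BB (MP_de0dde_an), JOB FIX: the fixed point. -/

set_option autoImplicit false

open MeasureTheory Filter Topology Set

namespace Pool.Agent.Q82.BB

theorem fix_e_nonneg (p : ℕ) (ξ τ : ℝ) : 0 ≤ ex ξ τ / (1 + |ξ|) ^ p := by
  unfold ex
  positivity

theorem fix_e_le_one (p : ℕ) (ξ : ℝ) {τ : ℝ} (hτ : 0 ≤ τ) : ex ξ τ / (1 + |ξ|) ^ p ≤ 1 := by
  have h1 : ex ξ τ ≤ 1 := by
    unfold ex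
    rw [Real.exp_le_one_iff]
    have := mul_nonneg hτ (abs_nonneg ξ)
    linarith
  have h2 : 1 ≤ (1 + |ξ|) ^ p := one_le_pow₀ (by linarith [abs_nonneg ξ])
  rw [div_le_one (by positivity)]
  linarith

theorem fix_e_mono (p : ℕ) (ξ τ : ℝ) :
    ex ξ τ / (1 + |ξ|) ^ (p + 2) ≤ ex ξ τ / (1 + |ξ|) ^ (p + 1) := by
  refine div_le_div_of_nonneg_left (by unfold ex; positivity) (by positivity) ?_
  exact pow_le_pow_right₀ (by linarith [abs_nonneg ξ]) (by omega)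

/-- the iteration -/
noncomputable def fix_W (T : ℝ) (p : ℕ) (κ : ℝ → ℝ → ℝ → ℝ) (ε : ℝ) : ℕ → ℝ → ℝ → ℂ
  | 0 => w0 p ε
  | n + 1 => fun ξ τ => w0 p ε ξ τ + Nl T κ (fix_W T p κ ε n) ξ τ

/-- the constants -/
noncomputable def fix_C (ε K0 : ℝ) (Cs K1 : ℕ → ℝ) : ℕ → ℕ → ℝ
  | 0 => fun i => ε * Cs i
  | n + 1 => fun i => ε * Cs i + fix_C ε K0 Cs K1 n 0 *
      (K0 * fix_C ε K0 Cs K1 n i + K1 i * ∑ j ∈ Finset.range i, fix_C ε K0 Cs K1 n j)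

theorem fix_C_nonneg {ε K0 : ℝ} {Cs K1 : ℕ → ℝ} (hε : 0 ≤ ε) (hK0 : 0 ≤ K0) (hCs : ∀ i, 0 ≤ Cs i)
    (hK1 : ∀ i, 0 ≤ K1 i) : ∀ n i, 0 ≤ fix_C ε K0 Cs K1 n i := by
  intro n
  induction n with
  | zero => intro i; exact mul_nonneg hε (hCs i)
  | succ n ih =>
    intro i
    refine add_nonneg (mul_nonneg hε (hCs i)) (mul_nonneg (ih 0) (add_nonneg
      (mul_nonneg hK0 (ih i)) (mul_nonneg (hK1 i) (Finset.sum_nonneg fun j _ => ih j))))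

theorem fix_C_zero {ε K0 : ℝ} {Cs K1 : ℕ → ℝ} (hε : 0 ≤ ε) (hK0 : 0 ≤ K0) (hCs : ∀ i, 0 ≤ Cs i)
    (hK1 : ∀ i, 0 ≤ K1 i) (hs : 4 * K0 * (ε * Cs 0) ≤ 1) :
    ∀ n, fix_C ε K0 Cs K1 n 0 ≤ 2 * (ε * Cs 0) := by
  intro n
  have hA : 0 ≤ ε * Cs 0 := mul_nonneg hε (hCs 0)
  induction n with
  | zero => show ε * Cs 0 ≤ _; linarith
  | succ n ih =>
    have h0 := fix_C_nonneg hε hK0 hCs hK1 n 0
    show ε * Cs 0 + fix_C ε K0 Cs K1 n 0 * (K0 * fix_C ε K0 Cs K1 n 0 +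
      K1 0 * ∑ j ∈ Finset.range 0, fix_C ε K0 Cs K1 n j) ≤ _
    rw [Finset.range_zero, Finset.sum_empty, mul_zero, add_zero]
    set x := fix_C ε K0 Cs K1 n 0
    set A := ε * Cs 0
    have h1 : x * (K0 * x) ≤ 2 * A * (K0 * (2 * A)) := by
      have : K0 * x ≤ K0 * (2 * A) := mul_le_mul_of_nonneg_left ih hK0
      exact mul_le_mul ih this (mul_nonneg hK0 h0) (by linarith)
    have h2 : 2 * A * (K0 * (2 * A)) = (4 * K0 * A) * A := by ring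
    have h3 : (4 * K0 * A) * A ≤ 1 * A := mul_le_mul_of_nonneg_right hs hA
    linarith

theorem fix_C_bdd {ε K0 : ℝ} {Cs K1 : ℕ → ℝ} (hε : 0 ≤ ε) (hK0 : 0 ≤ K0) (hCs : ∀ i, 0 ≤ Cs i)
    (hK1 : ∀ i, 0 ≤ K1 i) (hs : 4 * K0 * (ε * Cs 0) ≤ 1) :
    ∀ i, ∃ B : ℝ, 0 ≤ B ∧ ∀ n, fix_C ε K0 Cs K1 n i ≤ B := by
  intro i
  induction i using Nat.strong_induction_on with
  | _ i ih =>
    choose! B hB0 hB using ih
    have hA : 0 ≤ ε * Cs 0 := mul_nonneg hε (hCs 0)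
    set S := ∑ j ∈ Finset.range i, B j with hS
    have hS0 : 0 ≤ S := Finset.sum_nonneg fun j hj => hB0 j (Finset.mem_range.1 hj)
    set a := ε * Cs i + 2 * (ε * Cs 0) * (K1 i * S) with ha
    have ha0 : 0 ≤ a := by
      have := mul_nonneg (mul_nonneg (by norm_num : (0 : ℝ) ≤ 2) hA) (mul_nonneg (hK1 i) hS0)
      have := mul_nonneg hε (hCs i)
      linarith
    refine ⟨2 * a, by linarith, fun n => ?_⟩
    induction n with
    | zero =>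
      show ε * Cs i ≤ _
      have := mul_nonneg (mul_nonneg (by norm_num : (0 : ℝ) ≤ 2) hA) (mul_nonneg (hK1 i) hS0)
      have h5 := mul_nonneg hε (hCs i)
      linarith
    | succ n ihn =>
      have h0 := fix_C_nonneg hε hK0 hCs hK1 n
      have hz := fix_C_zero hε hK0 hCs hK1 hs n
      show ε * Cs i + fix_C ε K0 Cs K1 n 0 * (K0 * fix_C ε K0 Cs K1 n i +
        K1 i * ∑ j ∈ Finset.range i, fix_C ε K0 Cs K1 n j) ≤ _
      have h1 : ∑ j ∈ Finset.range i, fix_C ε K0 Cs K1 n j ≤ S :=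
        Finset.sum_le_sum fun j hj => hB j (Finset.mem_range.1 hj) n
      have h2 : K0 * fix_C ε K0 Cs K1 n i + K1 i * ∑ j ∈ Finset.range i, fix_C ε K0 Cs K1 n j ≤
          K0 * (2 * a) + K1 i * S :=
        add_le_add (mul_le_mul_of_nonneg_left ihn hK0) (mul_le_mul_of_nonneg_left h1 (hK1 i))
      have h3 : fix_C ε K0 Cs K1 n 0 * (K0 * fix_C ε K0 Cs K1 n i +
          K1 i * ∑ j ∈ Finset.range i, fix_C ε K0 Cs K1 n j) ≤
          2 * (ε * Cs 0) * (K0 * (2 * a) + K1 i * S) :=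
        mul_le_mul hz h2 (add_nonneg (mul_nonneg hK0 (h0 i)) (mul_nonneg (hK1 i)
          (Finset.sum_nonneg fun j _ => h0 j))) (by linarith)
      have h4 : 2 * (ε * Cs 0) * (K0 * (2 * a) + K1 i * S) =
          (4 * K0 * (ε * Cs 0)) * a + 2 * (ε * Cs 0) * (K1 i * S) := by ring
      have h5 : (4 * K0 * (ε * Cs 0)) * a ≤ 1 * a := mul_le_mul_of_nonneg_right hs ha0
      linarith

theorem fix_mono {T : ℝ} {p : ℕ} {w : ℝ → ℝ → ℂ} {Cs Ds : ℕ → ℝ} (h : Adm T p w Cs)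
    (hle : ∀ i, Cs i ≤ Ds i) : Adm T p w Ds := by
  refine ⟨h.1, h.2.1, fun i => (h.2.2.1 i).trans (hle i), fun i ξ τ hτ => ?_⟩
  exact (h.2.2.2 i ξ τ hτ).trans (mul_le_mul_of_nonneg_right (hle i) (fix_e_nonneg _ _ _))

theorem fix_step {T : ℝ} {p : ℕ} {κ : ℝ → ℝ → ℝ → ℝ} {w0' w : ℝ → ℝ → ℂ} {C0 D : ℕ → ℝ}
    (h0 : Adm T p w0' C0) (hD : ∀ i, 0 ≤ D i)
    (h1 : ∀ τ ∈ Icc 0 T, ∀ n : ℕ, ContDiff ℝ n (fun ξ => Nl T κ w ξ τ))
    (h2 : ∀ i : ℕ, ContinuousOn (fun q : ℝ × ℝ => iteratedDeriv i (fun ξ => Nl T κ w ξ q.2) q.1)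
      (univ ×ˢ Icc 0 T))
    (h3 : ∀ i : ℕ, ∀ ξ : ℝ, ∀ τ ∈ Icc 0 T, ‖iteratedDeriv i (fun ξ => Nl T κ w ξ τ) ξ‖ ≤
      D i * (ex ξ τ / (1 + |ξ|) ^ (p + 2))) :
    Adm T p (fun ξ τ => w0' ξ τ + Nl T κ w ξ τ) (fun i => C0 i + D i) := by
  have key : ∀ i : ℕ, ∀ ξ : ℝ, ∀ τ ∈ Icc 0 T, iteratedDeriv i (fun ξ => w0' ξ τ + Nl T κ w ξ τ) ξ =
      iteratedDeriv i (fun ξ => w0' ξ τ) ξ + iteratedDeriv i (fun ξ => Nl T κ w ξ τ) ξ := by
    intro i ξ τ hτ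
    exact iteratedDeriv_fun_add (h0.1 τ hτ i).contDiffAt (h1 τ hτ i).contDiffAt
  refine ⟨fun τ hτ n => (h0.1 τ hτ n).add (h1 τ hτ n), fun i => ?_,
    fun i => add_nonneg (h0.2.2.1 i) (hD i), fun i ξ τ hτ => ?_⟩
  · refine ((h0.2.1 i).add (h2 i)).congr fun q hq => ?_
    exact key i q.1 q.2 hq.2
  · rw [key i ξ τ hτ]
    refine (norm_add_le _ _).trans ?_
    rw [add_mul]
    refine add_le_add (h0.2.2.2 i ξ τ hτ) ((h3 i ξ τ hτ).trans ?_)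
    exact mul_le_mul_of_nonneg_left (fix_e_mono p ξ τ) (hD i)

theorem fix_cv_conj {T : ℝ} {w : ℝ → ℝ → ℂ} {τ : ℝ} (hτ : τ ∈ Icc 0 T)
    (h : ∀ ξ : ℝ, ∀ τ ∈ Icc 0 T, w (-ξ) τ = (starRingEnd ℂ) (w ξ τ)) (ξ : ℝ) :
    cv w w (-ξ) τ = (starRingEnd ℂ) (cv w w ξ τ) := by
  unfold cv
  rw [← integral_conj, ← integral_neg_eq_self (fun η => w η τ * w (-ξ - η) τ)]
  refine integral_congr_ae (Eventually.of_forall fun η => ?_)
  show w (-η) τ * w (-ξ - -η) τ = (starRingEnd ℂ) (w η τ * w (ξ - η) τ)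
  rw [map_mul, ← h η τ hτ, ← h (ξ - η) τ hτ]
  congr 2
  ring

theorem fix_Nl_conj {T : ℝ} (hT : 0 < T) {κ : ℝ → ℝ → ℝ → ℝ} (hκ : ∀ ξ τ s, κ (-ξ) τ s = κ ξ τ s)
    {w : ℝ → ℝ → ℂ} (h : ∀ ξ : ℝ, ∀ τ ∈ Icc 0 T, w (-ξ) τ = (starRingEnd ℂ) (w ξ τ)) (ξ τ : ℝ) :
    Nl T κ w (-ξ) τ = (starRingEnd ℂ) (Nl T κ w ξ τ) := by
  unfold Nl
  rw [intervalIntegral.integral_of_le hT.le, intervalIntegral.integral_of_le hT.le, ← integral_conj]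
  refine setIntegral_congr_fun measurableSet_Ioc fun s hs => ?_
  show (κ (-ξ) τ s : ℂ) * cv w w (-ξ) s = (starRingEnd ℂ) ((κ ξ τ s : ℂ) * cv w w ξ s)
  rw [map_mul, Complex.conj_ofReal, hκ, fix_cv_conj (T := T) ⟨hs.1.le, hs.2⟩ h]

/-- the fixed point -/
theorem fix1 (h1 : S_W0) (h2 : S_CVB) (h3 : S_NB) (h4 : S_NL) (h5 : S_LIM) : S_FIX := by
  intro T p κ hT hκ
  have _ := h2
  obtain ⟨Cs, hw0⟩ := h1 T p hT
  obtain ⟨K0, K1, hK0, hK1, hNB⟩ := h3 T p κ hT hκ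
  obtain ⟨L, hL, hNL⟩ := h4 T p κ hT hκ
  have hCs : ∀ i, 0 ≤ Cs i := fun i => by
    have := (hw0 1 one_pos).1.2.2.1 i
    simpa using this
  -- the choice of `ε`
  obtain ⟨ε, hε, hs, hs2⟩ : ∃ ε : ℝ, 0 < ε ∧ 4 * K0 * (ε * Cs 0) ≤ 1 ∧ 8 * L * (ε * Cs 0) ≤ 1 := by
    refine ⟨1 / (1 + 4 * K0 * Cs 0 + 8 * L * Cs 0), ?_, ?_, ?_⟩
    · have := mul_nonneg hK0.le (hCs 0)
      have := mul_nonneg hL.le (hCs 0)
      have h : 0 < 1 + 4 * K0 * Cs 0 + 8 * L * Cs 0 := by nlinarith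
      positivity
    · have := mul_nonneg hK0.le (hCs 0)
      have := mul_nonneg hL.le (hCs 0)
      have h : 0 < 1 + 4 * K0 * Cs 0 + 8 * L * Cs 0 := by nlinarith
      have e : 4 * K0 * (1 / (1 + 4 * K0 * Cs 0 + 8 * L * Cs 0) * Cs 0) =
          4 * K0 * Cs 0 / (1 + 4 * K0 * Cs 0 + 8 * L * Cs 0) := by ring
      rw [e, div_le_one h]
      nlinarith
    · have := mul_nonneg hK0.le (hCs 0)
      have := mul_nonneg hL.le (hCs 0)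
      have h : 0 < 1 + 4 * K0 * Cs 0 + 8 * L * Cs 0 := by nlinarith
      have e : 8 * L * (1 / (1 + 4 * K0 * Cs 0 + 8 * L * Cs 0) * Cs 0) =
          8 * L * Cs 0 / (1 + 4 * K0 * Cs 0 + 8 * L * Cs 0) := by ring
      rw [e, div_le_one h]
      nlinarith
  obtain ⟨hA0, hsym⟩ := hw0 ε hε
  set W := fix_W T p κ ε with hW
  set Cn := fix_C ε K0 Cs K1 with hCn
  have hCn0 : ∀ n i, 0 ≤ Cn n i := fix_C_nonneg hε.le hK0.le hCs hK1
  have hCnz : ∀ n, Cn n 0 ≤ 2 * (ε * Cs 0) := fix_C_zero hε.le hK0.le hCs hK1 hs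
  have hA : 0 ≤ ε * Cs 0 := mul_nonneg hε.le (hCs 0)
  choose B hB0 hB using fix_C_bdd hε.le hK0.le hCs hK1 hs
  -- all iterates are admissible
  have hadm : ∀ n, Adm T p (W n) (Cn n) := by
    intro n
    induction n with
    | zero => exact hA0
    | succ n ih =>
      obtain ⟨a1, a2, a3⟩ := hNB (W n) (Cn n) ih
      exact fix_step hA0 (fun i => mul_nonneg (hCn0 n 0) (add_nonneg (mul_nonneg hK0.le (hCn0 n i))
        (mul_nonneg (hK1 i) (Finset.sum_nonneg fun j _ => hCn0 n j)))) a1 a2 a3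
  have hadmB : ∀ n, Adm T p (W n) B := fun n => fix_mono (hadm n) fun i => hB i n
  -- differences
  set D0 := K0 * (ε * Cs 0) ^ 2 with hD0
  have hD00 : 0 ≤ D0 := mul_nonneg hK0.le (sq_nonneg _)
  have hdiff : ∀ n, ∀ ξ : ℝ, ∀ τ ∈ Icc 0 T, ‖W (n + 1) ξ τ - W n ξ τ‖ ≤
      D0 * (1 / 2) ^ n * (ex ξ τ / (1 + |ξ|) ^ (p + 1)) := by
    intro n
    induction n with
    | zero =>
      intro ξ τ hτ
      have e1 : W 1 ξ τ - W 0 ξ τ = Nl T κ (W 0) ξ τ := by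
        show w0 p ε ξ τ + Nl T κ (W 0) ξ τ - w0 p ε ξ τ = _
        ring
      have h6 := (hNB (W 0) (Cn 0) (hadm 0)).2.2 0 ξ τ hτ
      rw [iteratedDeriv_zero, Finset.range_zero, Finset.sum_empty, mul_zero, add_zero] at h6
      have e2 : Cn 0 0 = ε * Cs 0 := rfl
      rw [e2] at h6
      rw [zero_add, e1, pow_zero, mul_one]
      refine h6.trans ?_
      have e3 : ε * Cs 0 * (K0 * (ε * Cs 0)) = D0 := by rw [hD0]; ring
      rw [e3]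
      exact mul_le_mul_of_nonneg_left (fix_e_mono p ξ τ) hD00
    | succ n ih =>
      intro ξ τ hτ
      have e1 : W (n + 1 + 1) ξ τ - W (n + 1) ξ τ = Nl T κ (W (n + 1)) ξ τ - Nl T κ (W n) ξ τ := by
        show w0 p ε ξ τ + Nl T κ (W (n + 1)) ξ τ - (w0 p ε ξ τ + Nl T κ (W n) ξ τ) = _
        ring
      have h6 := hNL (W (n + 1)) (W n) (Cn (n + 1)) (Cn n) (D0 * (1 / 2) ^ n)
        (mul_nonneg hD00 (by positivity)) (hadm (n + 1)) (hadm n) ih ξ τ hτ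
      rw [e1]
      refine h6.trans ?_
      refine (mul_le_mul_of_nonneg_left (fix_e_mono p ξ τ) ?_).trans ?_
      · exact mul_nonneg (mul_nonneg hL.le (add_nonneg (hCn0 _ _) (hCn0 _ _)))
          (mul_nonneg hD00 (by positivity))
      · refine mul_le_mul_of_nonneg_right ?_ (fix_e_nonneg _ _ _)
        have h7 : L * (Cn (n + 1) 0 + Cn n 0) ≤ 1 / 2 := by
          have h8 : L * (Cn (n + 1) 0 + Cn n 0) ≤ L * (2 * (ε * Cs 0) + 2 * (ε * Cs 0)) :=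
            mul_le_mul_of_nonneg_left (add_le_add (hCnz _) (hCnz _)) hL.le
          linarith
        have h9 := mul_le_mul_of_nonneg_right h7
          (mul_nonneg hD00 (by positivity : (0 : ℝ) ≤ (1 / 2) ^ n))
        rw [pow_succ]
        linarith
  -- the limit
  obtain ⟨v, hv1, hv2, hv3⟩ := h5 T W hT (fun n τ hτ m => (hadm n).1 τ hτ m)
    (fun n i => (hadm n).2.1 i)
    (fun i => ⟨B i, fun n ξ τ hτ => ((hadmB n).2.2.2 i ξ τ hτ).trans (by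
      have := mul_le_mul_of_nonneg_left (fix_e_le_one (p + 1) ξ hτ.1) (hB0 i)
      linarith)⟩)
    ⟨1 / 2, D0, by norm_num, by norm_num, fun n ξ τ hτ => (hdiff n ξ τ hτ).trans (by
      have := mul_le_mul_of_nonneg_left (fix_e_le_one (p + 1) ξ hτ.1)
        (mul_nonneg hD00 (by positivity : (0 : ℝ) ≤ (1 / 2) ^ n))
      linarith)⟩
  have hvadm : Adm T p v B := by
    refine ⟨hv1, hv2, hB0, fun i ξ τ hτ => ?_⟩
    exact le_of_tendsto' (hv3 i ξ τ hτ).norm fun n => (hadmB n).2.2.2 i ξ τ hτ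
  have hlim : ∀ ξ : ℝ, ∀ τ ∈ Icc 0 T, Tendsto (fun n => W n ξ τ) atTop (𝓝 (v ξ τ)) := by
    intro ξ τ hτ
    have := hv3 0 ξ τ hτ
    simpa only [iteratedDeriv_zero] using this
  have hclose : ∀ n, ∀ ξ : ℝ, ∀ τ ∈ Icc 0 T, ‖W n ξ τ - v ξ τ‖ ≤
      2 * D0 * (1 / 2) ^ n * (ex ξ τ / (1 + |ξ|) ^ (p + 1)) := by
    intro n ξ τ hτ
    have h6 := dist_le_of_le_geometric_of_tendsto (1 / 2)
      (D0 * (ex ξ τ / (1 + |ξ|) ^ (p + 1))) (by norm_num) (f := fun n => W n ξ τ) (fun n => by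
        rw [dist_comm, dist_eq_norm]
        have := hdiff n ξ τ hτ
        linarith) (hlim ξ τ hτ) n
    rw [dist_eq_norm] at h6
    have e : D0 * (ex ξ τ / (1 + |ξ|) ^ (p + 1)) * (1 / 2) ^ n / (1 - 1 / 2) =
        2 * D0 * (1 / 2) ^ n * (ex ξ τ / (1 + |ξ|) ^ (p + 1)) := by ring
    rw [e] at h6
    exact h6
  have hNlim : ∀ ξ : ℝ, ∀ τ ∈ Icc 0 T,
      Tendsto (fun n => Nl T κ (W n) ξ τ) atTop (𝓝 (Nl T κ v ξ τ)) := by
    intro ξ τ hτ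
    rw [tendsto_iff_norm_sub_tendsto_zero]
    have hb : ∀ n, ‖Nl T κ (W n) ξ τ - Nl T κ v ξ τ‖ ≤
        (L * (B 0 + B 0) * (2 * D0) * (ex ξ τ / (1 + |ξ|) ^ (p + 2))) * (1 / 2) ^ n := by
      intro n
      have h6 := hNL (W n) v B B (2 * D0 * (1 / 2) ^ n)
        (mul_nonneg (by linarith) (by positivity)) (hadmB n) hvadm (hclose n) ξ τ hτ
      refine h6.trans (le_of_eq ?_)
      ring
    refine squeeze_zero (fun n => norm_nonneg _) hb ?_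
    have := (tendsto_pow_atTop_nhds_zero_of_lt_one (by norm_num : (0 : ℝ) ≤ 1 / 2)
      (by norm_num : (1 / 2 : ℝ) < 1)).const_mul
      (L * (B 0 + B 0) * (2 * D0) * (ex ξ τ / (1 + |ξ|) ^ (p + 2)))
    rwa [mul_zero] at this
  have hherm : ∀ n, ∀ ξ : ℝ, ∀ τ ∈ Icc 0 T, W n (-ξ) τ = (starRingEnd ℂ) (W n ξ τ) := by
    intro n
    induction n with
    | zero => intro ξ τ _; exact hsym ξ τ
    | succ n ih =>
      intro ξ τ hτ
      show w0 p ε (-ξ) τ + Nl T κ (W n) (-ξ) τ = (starRingEnd ℂ) (w0 p ε ξ τ + Nl T κ (W n) ξ τ)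
      rw [map_add, hsym, fix_Nl_conj hT hκ.2.2.1 ih]
  obtain ⟨a1, a2, a3⟩ := hNB v B hvadm
  refine ⟨ε, v, B, hε, hvadm, fun ξ τ hτ => ?_, fun ξ τ hτ => ?_, ?_⟩
  · refine tendsto_nhds_unique ((hlim ξ τ hτ).comp (tendsto_add_atTop_nat 1)) ?_
    have := (hNlim ξ τ hτ).const_add (w0 p ε ξ τ)
    exact this
  · refine tendsto_nhds_unique (hlim (-ξ) τ hτ) ?_
    have h6 : Tendsto (fun n => (starRingEnd ℂ) (W n ξ τ)) atTop (𝓝 ((starRingEnd ℂ) (v ξ τ))) :=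
      (Complex.continuous_conj.tendsto _).comp (hlim ξ τ hτ)
    exact h6.congr fun n => (hherm n ξ τ hτ).symm
  · refine ⟨B 0 * (K0 * B 0 + K1 0 * ∑ j ∈ Finset.range 0, B j), fun ξ τ hτ => ?_⟩
    have := a3 0 ξ τ hτ
    simpa only [iteratedDeriv_zero] using this

end Pool.Agent.Q82.BB
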